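import Pool.Agent.L7h31.KN.Stm

set_option autoImplicit false

/-! Project KN (helper31), part ADD: functions of degree at most `k` on the cube. -/

namespace Pool.Agent.L7h74.KN

open Pool.Agent.L7h31.KN

theorem D_add {ι : Type} [Fintype ι] [DecidableEq ι] (j : ι) (f g : (ι → Bool) → ZMod 2) :
    D j (f + g) = D j f + D j g := by
  funext y
  simp only [D, Pi.add_apply]
  ring

theorem D_zero {ι : Type} [Fintype ι] [DecidableEq ι] (j : ι) :
    D j (0 : (ι → Bool) → ZMod 2) = 0 := by
  funext y
  simp only [D, Pi.zero_apply, add_zero]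

theorem deg_zero {ι : Type} [Fintype ι] [DecidableEq ι] (k : ℕ) :
    Deg k (0 : (ι → Bool) → ZMod 2) := by
  induction k with
  | zero => intro j; exact D_zero j
  | succ k ih => intro j; rw [D_zero]; exact ih

theorem deg_add {ι : Type} [Fintype ι] [DecidableEq ι] (k : ℕ) :
    ∀ f g : (ι → Bool) → ZMod 2, Deg k f → Deg k g → Deg k (f + g) := by
  induction k with
  | zero => intro f g hf hg j; rw [D_add, hf j, hg j, add_zero]
  | succ k ih => intro f g hf hg j; rw [D_add]; exact ih _ _ (hf j) (hg j)

theorem deg_succ {ι : Type} [Fintype ι] [DecidableEq ι] (k : ℕ) :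
    ∀ f : (ι → Bool) → ZMod 2, Deg k f → Deg (k + 1) f := by
  induction k with
  | zero => intro f hf j; rw [hf j]; exact deg_zero 0
  | succ k ih => intro f hf j; exact ih _ (hf j)

theorem s_ADD : S_ADD := by
  intro ι _ _ k f g
  exact ⟨deg_add k f g, deg_zero k, deg_succ k f⟩

end Pool.Agent.L7h74.KN
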